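import Mathlib

set_option autoImplicit false

/-! Cocycles on a free group of rank two, written through permutations of `X × A`. -/

namespace Pool.Agent.Helper638

open Equiv

section Basic

variable {X : Type*} {A : Type*} [AddCommGroup A]

/-- The permutation `(x, s) ↦ (σ x, s + u x)` of `X × A`. -/
def shift (σ : Perm X) (u : X → A) : Perm (X × A) where
  toFun p := (σ p.1, p.2 + u p.1)
  invFun p := (σ.symm p.1, p.2 - u (σ.symm p.1))
  left_inv p := by simp
  right_inv p := by simp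

@[simp] lemma shift_apply (σ : Perm X) (u : X → A) (x : X) (s : A) :
    shift σ u (x, s) = (σ x, s + u x) := rfl

@[simp] lemma shift_symm_apply (σ : Perm X) (u : X → A) (x : X) (s : A) :
    (shift σ u).symm (x, s) = (σ.symm x, s - u (σ.symm x)) := rfl

/-- The homomorphism from the free group given by two shifts. -/
def psi (σ : Fin 2 → Perm X) (u : Fin 2 → X → A) : FreeGroup (Fin 2) →* Perm (X × A) :=
  FreeGroup.lift (fun i => shift (σ i) (u i))

/-- The cocycle with values `u`. -/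
def Z (σ : Fin 2 → Perm X) (u : Fin 2 → X → A) (w : FreeGroup (Fin 2)) (x : X) : A :=
  (psi σ u w (x, 0)).2

lemma psi_eq_shift (σ : Fin 2 → Perm X) (u : Fin 2 → X → A) (w : FreeGroup (Fin 2)) :
    psi σ u w = shift (FreeGroup.lift σ w) (Z σ u w) := by
  have key : ∀ x s, psi σ u w (x, s) = (FreeGroup.lift σ w x, s + Z σ u w x) := by
    induction w using FreeGroup.induction_on with
    | C1 => intro x s; simp [Z]
    | of i => intro x s; simp [Z, psi]
    | inv_of i ih =>
      intro x s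
      simp [Z, psi, sub_eq_add_neg]
    | mul w₁ w₂ h₁ h₂ =>
      intro x s
      have e : Z σ u (w₁ * w₂) x = Z σ u w₂ x + Z σ u w₁ (FreeGroup.lift σ w₂ x) := by
        unfold Z
        rw [map_mul, Perm.mul_apply, h₂, h₁]
        simp [Z]
      rw [map_mul, Perm.mul_apply, h₂, h₁, e, map_mul, Perm.mul_apply, add_assoc]
  ext ⟨x, s⟩ <;> simp [key]

lemma Z_one (σ : Fin 2 → Perm X) (u : Fin 2 → X → A) : Z σ u 1 = 0 := by
  ext x; simp [Z]

lemma Z_of (σ : Fin 2 → Perm X) (u : Fin 2 → X → A) (i : Fin 2) :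
    Z σ u (FreeGroup.of i) = u i := by
  ext x; simp [Z, psi]

lemma Z_mul (σ : Fin 2 → Perm X) (u : Fin 2 → X → A) (w₁ w₂ : FreeGroup (Fin 2)) (x : X) :
    Z σ u (w₁ * w₂) x = Z σ u w₂ x + Z σ u w₁ (FreeGroup.lift σ w₂ x) := by
  have h := psi_eq_shift σ u w₁
  have h2 := psi_eq_shift σ u w₂
  conv_lhs => rw [Z, map_mul, Perm.mul_apply, h2, shift_apply, h, shift_apply]
  simp

lemma Z_inv (σ : Fin 2 → Perm X) (u : Fin 2 → X → A) (w : FreeGroup (Fin 2)) (x : X) :
    Z σ u w⁻¹ x = - Z σ u w ((FreeGroup.lift σ w).symm x) := by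
  have h := psi_eq_shift σ u w
  conv_lhs => rw [Z, map_inv, h]
  simp

lemma Z_map {B : Type*} [AddCommGroup B] (L : A →+ B)
    (σ : Fin 2 → Perm X) (u : Fin 2 → X → A) (w : FreeGroup (Fin 2)) (x : X) :
    Z σ (fun i x => L (u i x)) w x = L (Z σ u w x) := by
  induction w using FreeGroup.induction_on generalizing x with
  | C1 => simp [Z_one]
  | of i => simp [Z_of]
  | inv_of i ih => rw [Z_inv, Z_inv, ih, map_neg]
  | mul w₁ w₂ h₁ h₂ => rw [Z_mul, Z_mul, h₁, h₂, map_add]

lemma lift_equivariant {Y : Type*} (φ : Y → X) (σ : Fin 2 → Perm X) (τ : Fin 2 → Perm Y)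
    (h : ∀ i y, φ (τ i y) = σ i (φ y)) (w : FreeGroup (Fin 2)) (y : Y) :
    φ (FreeGroup.lift τ w y) = FreeGroup.lift σ w (φ y) := by
  induction w using FreeGroup.induction_on generalizing y with
  | C1 => simp
  | of i => simp [h]
  | inv_of i ih =>
    have := h i ((τ i).symm y)
    rw [Equiv.apply_symm_apply] at this
    simp only [map_inv, FreeGroup.lift_apply_of, Perm.coe_inv]
    rw [this, Equiv.symm_apply_apply]
  | mul w₁ w₂ h₁ h₂ => simp only [map_mul, Perm.mul_apply, h₁, h₂]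

lemma Z_comp {Y : Type*} (φ : Y → X) (σ : Fin 2 → Perm X) (τ : Fin 2 → Perm Y)
    (h : ∀ i y, φ (τ i y) = σ i (φ y)) (u : Fin 2 → X → A) (w : FreeGroup (Fin 2)) (y : Y) :
    Z τ (fun i y => u i (φ y)) w y = Z σ u w (φ y) := by
  induction w using FreeGroup.induction_on generalizing y with
  | C1 => simp [Z_one]
  | of i => simp [Z_of]
  | inv_of i ih =>
    have e := lift_equivariant φ σ τ h (FreeGroup.of i)⁻¹ y
    simp only [map_inv, Perm.coe_inv] at e
    rw [Z_inv, Z_inv, ih, e]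
  | mul w₁ w₂ h₁ h₂ =>
    rw [Z_mul, Z_mul, h₁, h₂, lift_equivariant φ σ τ h]

lemma Z_add (σ : Fin 2 → Perm X) (u v : Fin 2 → X → A) (w : FreeGroup (Fin 2)) (x : X) :
    Z σ (u + v) w x = Z σ u w x + Z σ v w x := by
  induction w using FreeGroup.induction_on generalizing x with
  | C1 => simp [Z_one]
  | of i => simp [Z_of]
  | inv_of i ih => rw [Z_inv, Z_inv, Z_inv, ih, neg_add]
  | mul w₁ w₂ h₁ h₂ => rw [Z_mul, Z_mul, Z_mul, h₁, h₂]; abel

lemma Z_smul {k : Type*} [Ring k] [Module k A] (c : k)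
    (σ : Fin 2 → Perm X) (u : Fin 2 → X → A) (w : FreeGroup (Fin 2)) (x : X) :
    Z σ (c • u) w x = c • Z σ u w x := by
  induction w using FreeGroup.induction_on generalizing x with
  | C1 => simp [Z_one]
  | of i => simp [Z_of]
  | inv_of i ih => rw [Z_inv, Z_inv, ih, smul_neg]
  | mul w₁ w₂ h₁ h₂ => rw [Z_mul, Z_mul, h₁, h₂, smul_add]

/-- The cocycle as a linear function of its values on the generators. -/
def Zlin (k : Type*) [Ring k] [Module k A] (σ : Fin 2 → Perm X) (w : FreeGroup (Fin 2)) :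
    (Fin 2 → X → A) →ₗ[k] (X → A) where
  toFun u := Z σ u w
  map_add' u v := by ext x; simp [Z_add]
  map_smul' c u := by ext x; simp [Z_smul]

end Basic

end Pool.Agent.Helper638
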