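import Mathlib
import Pool.Agent.Helper638.Affine

set_option autoImplicit false

/-! A Golod-Shafarevich type criterion for two-generator groups. -/

namespace Pool.Agent.Helper638

open Equiv Module

section Filtration

variable (k : Type*) [Field k] {G : Type*} [Group G] (N : Subgroup G)

/-- The ascending filtration of the functions on `N`. -/
def tt : ℕ → Submodule k (N → k)
  | 0 => ⊥
  | n + 1 =>
    { carrier := {f | ∀ a : N, (fun b => f (a * b) - f b) ∈ tt n}
      add_mem' := by
        intro f g hf hg a
        have := (tt n).add_mem (hf a) (hg a)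
        convert this using 1
        ext b; simp; ring
      zero_mem' := by
        intro a
        convert (tt n).zero_mem using 1
        ext b; simp
      smul_mem' := by
        intro c f hf a
        have := (tt n).smul_mem c (hf a)
        convert this using 1
        ext b; simp; ring }

lemma mem_tt_succ (n : ℕ) (f : N → k) :
    f ∈ tt k N (n + 1) ↔ ∀ a : N, (fun b => f (a * b) - f b) ∈ tt k N n := Iff.rfl

lemma tt_translate (n : ℕ) (f : N → k) (hf : f ∈ tt k N n) (c : N) :
    (fun b => f (c * b)) ∈ tt k N n := by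
  cases n with
  | zero =>
    have : f = 0 := by simpa [tt] using hf
    subst this
    exact (tt k N 0).zero_mem
  | succ n =>
    intro a
    have h1 := hf (c * a)
    have h2 := hf c
    have := (tt k N n).sub_mem h1 h2
    convert this using 1
    ext b
    simp [mul_assoc]

lemma tt_mono (n : ℕ) : tt k N n ≤ tt k N (n + 1) := by
  intro f hf a
  exact (tt k N n).sub_mem (tt_translate k N n f hf a) hf

/-- Functions on `G` all of whose translates restrict into `tt n`. -/
def MM (n : ℕ) : Submodule k (G → k) where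
  carrier := {f | ∀ h : G, (fun b : N => f (h * b)) ∈ tt k N n}
  add_mem' := by
    intro f g hf hg h
    exact (tt k N n).add_mem (hf h) (hg h)
  zero_mem' := by
    intro h
    exact (tt k N n).zero_mem
  smul_mem' := by
    intro c f hf h
    exact (tt k N n).smul_mem c (hf h)

lemma mem_MM (n : ℕ) (f : G → k) :
    f ∈ MM k N n ↔ ∀ h : G, (fun b : N => f (h * b)) ∈ tt k N n := Iff.rfl

lemma MM_translate (n : ℕ) (f : G → k) (hf : f ∈ MM k N n) (g : G) :
    (fun h => f (g * h)) ∈ MM k N n := by
  intro h
  have := hf (g * h)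
  simpa [mul_assoc] using this

lemma MM_mono (n : ℕ) : MM k N n ≤ MM k N (n + 1) := by
  intro f hf h
  exact tt_mono k N n (hf h)

end Filtration

section Coset

variable (k : Type*) [Field k] {G : Type*} [Group G] {Ω : Type*}
  (π : G →* Perm Ω) (o : Ω)

/-- The stabilizer of a point. -/
def stab : Subgroup G where
  carrier := {g | π g o = o}
  mul_mem' := by
    intro a b ha hb
    simp only [Set.mem_ofPred_eq] at *
    rw [map_mul, Perm.mul_apply, hb, ha]
  one_mem' := by simp
  inv_mem' := by
    intro a ha
    simp only [Set.mem_ofPred_eq] at *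
    rw [map_inv, Perm.coe_inv, Equiv.symm_apply_eq, ha]

lemma mem_stab (g : G) : g ∈ stab π o ↔ π g o = o := Iff.rfl

variable {π o}

lemma rep_inv_mul_mem {rep : Ω → G} (hrep : ∀ ω, π (rep ω) o = ω) (h : G) :
    (rep (π h o))⁻¹ * h ∈ stab π o := by
  rw [mem_stab, map_mul, Perm.mul_apply, map_inv, Perm.coe_inv, Equiv.symm_apply_eq, hrep]

/-- The functions in `MM n` are families indexed by `Ω` of elements of `tt n`. -/
noncomputable def MMequiv {rep : Ω → G} (hrep : ∀ ω, π (rep ω) o = ω) (n : ℕ) :
    MM k (stab π o) n ≃ₗ[k] (Ω → tt k (stab π o) n) where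
  toFun f ω := ⟨fun b => f.1 (rep ω * b), f.2 (rep ω)⟩
  map_add' f g := by ext ω b; simp
  map_smul' c f := by ext ω b; simp
  invFun φ := ⟨fun h => (φ (π h o)).1 ⟨(rep (π h o))⁻¹ * h, rep_inv_mul_mem hrep h⟩, by
    intro h
    have key := tt_translate k (stab π o) n (φ (π h o)).1 (φ (π h o)).2
      ⟨(rep (π h o))⁻¹ * h, rep_inv_mul_mem hrep h⟩
    convert key using 1
    ext b
    have hb : π (h * b) o = π h o := by
      rw [map_mul, Perm.mul_apply, (mem_stab π o b.1).1 b.2]
    have : ∀ ω (e : ω = π h o) (hm : (rep ω)⁻¹ * (h * b) ∈ stab π o),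
        (φ ω).1 ⟨(rep ω)⁻¹ * (h * b), hm⟩ = (φ (π h o)).1
          (⟨(rep (π h o))⁻¹ * h, rep_inv_mul_mem hrep h⟩ * b) := by
      intro ω e hm
      subst e
      exact congrArg _ (Subtype.ext (by simp [mul_assoc]))
    exact this _ hb _⟩
  left_inv f := by
    ext h
    simp
  right_inv φ := by
    ext ω b
    have hb : π (rep ω * b) o = ω := by
      rw [map_mul, Perm.mul_apply, (mem_stab π o b.1).1 b.2, hrep]
    have : ∀ ω' (e : ω' = ω) (hm : (rep ω')⁻¹ * (rep ω * b) ∈ stab π o),
        (φ ω').1 ⟨(rep ω')⁻¹ * (rep ω * b), hm⟩ = (φ ω).1 b := by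
      intro ω' e hm
      subst e
      exact congrArg _ (Subtype.ext (by simp))
    exact this _ hb _

end Coset

end Pool.Agent.Helper638
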