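import Mathlib
import Pool.Agent.Helper638.GS

set_option autoImplicit false

namespace Pool.Agent.Helper638

open Equiv Module

section Linear

variable {k : Type*} [Field k] {V W : Type*} [AddCommGroup V] [Module k V] [AddCommGroup W]
  [Module k W] [FiniteDimensional k V] [FiniteDimensional k W]

lemma finrank_le_inf_ker_add (T : V →ₗ[k] W) (S : Submodule k V) (U : Submodule k W)
    (h : ∀ v ∈ S, T v ∈ U) :
    finrank k S ≤ finrank k (S ⊓ LinearMap.ker T : Submodule k V) + finrank k U := by
  let T' : S →ₗ[k] U := (T.domRestrict S).codRestrict U (fun v => h v.1 v.2)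
  have h1 := LinearMap.finrank_range_add_finrank_ker T'
  have h2 : finrank k (LinearMap.range T') ≤ finrank k U := Submodule.finrank_le _
  have h3 : finrank k (LinearMap.ker T') ≤ finrank k (S ⊓ LinearMap.ker T : Submodule k V) := by
    rw [← LinearMap.finrank_range_of_inj (f := S.subtype ∘ₗ (LinearMap.ker T').subtype)]
    · apply Submodule.finrank_mono
      rintro v ⟨⟨⟨v, hv⟩, hv'⟩, rfl⟩
      refine ⟨hv, ?_⟩
      exact congrArg Subtype.val (LinearMap.mem_ker.1 hv')
    · intro a b hab
      ext
      simpa using hab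
  omega

lemma finrank_map_mkQ (S U : Submodule k V) (h : S ≤ U) :
    finrank k (U.map S.mkQ) + finrank k S = finrank k U := by
  have h1 := LinearMap.finrank_range_add_finrank_ker (S.mkQ.domRestrict U)
  rw [LinearMap.range_domRestrict] at h1
  have h2 : finrank k (LinearMap.ker (S.mkQ.domRestrict U)) = finrank k S := by
    rw [← LinearMap.finrank_range_of_inj
      (f := U.subtype ∘ₗ (LinearMap.ker (S.mkQ.domRestrict U)).subtype)]
    · have : LinearMap.range (U.subtype ∘ₗ (LinearMap.ker (S.mkQ.domRestrict U)).subtype) = S := by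
        ext v
        constructor
        · rintro ⟨⟨⟨v, hv⟩, hv'⟩, rfl⟩
          simpa using hv'
        · intro hv
          exact ⟨⟨⟨v, h hv⟩, by simpa using hv⟩, rfl⟩
      rw [this]
    · intro a b hab
      ext
      simpa using hab
  omega

end Linear

section Criterion

variable (k : Type) [Field k] (r : Fin 2 → FreeGroup (Fin 2))

/-- left multiplication by the generators -/
def sigG (i : Fin 2) : Perm (PresentedGroup (Set.range r)) :=
  Equiv.mulLeft (PresentedGroup.of i)

lemma lift_sigG (w : FreeGroup (Fin 2)) (h : PresentedGroup (Set.range r)) :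
    FreeGroup.lift (sigG r) w h = PresentedGroup.mk (Set.range r) w * h := by
  induction w using FreeGroup.induction_on generalizing h with
  | C1 => simp
  | of i => simp [sigG, PresentedGroup.of]
  | inv_of i ih => simp [sigG, PresentedGroup.of]
  | mul w₁ w₂ h₁ h₂ => rw [map_mul, Perm.mul_apply, h₁, h₂, map_mul, mul_assoc]

lemma Z_mem_MM {k : Type} [Field k] (N : Subgroup (PresentedGroup (Set.range r))) (n : ℕ)
    (u : Fin 2 → PresentedGroup (Set.range r) → k) (hu : ∀ i, u i ∈ MM k N n)
    (w : FreeGroup (Fin 2)) : Z (sigG r) u w ∈ MM k N n := by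
  induction w using FreeGroup.induction_on with
  | C1 => rw [Z_one]; exact zero_mem _
  | of i => rw [Z_of]; exact hu i
  | inv_of i ih =>
    have e : Z (sigG r) u (FreeGroup.of i)⁻¹ = - fun h =>
        Z (sigG r) u (FreeGroup.of i) ((PresentedGroup.of i)⁻¹ * h) := by
      ext h
      rw [Z_inv, Pi.neg_apply]
      simp [sigG]
    rw [e]
    exact neg_mem (MM_translate k N n _ ih _)
  | mul w₁ w₂ h₁ h₂ =>
    have e : Z (sigG r) u (w₁ * w₂) = Z (sigG r) u w₂ + fun h =>
        Z (sigG r) u w₁ (PresentedGroup.mk (Set.range r) w₂ * h) := by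
      ext h
      rw [Z_mul, Pi.add_apply, lift_sigG]
    rw [e]
    exact add_mem h₂ (MM_translate k N n _ h₁ _)

/-- A pair of functions killed by the relators comes from a function. -/
lemma exists_primitive {k : Type} [Field k] (u : Fin 2 → PresentedGroup (Set.range r) → k)
    (hu : ∀ j, Z (sigG r) u (r j) = 0) :
    ∃ f : PresentedGroup (Set.range r) → k, ∀ i h, f (PresentedGroup.of i * h) - f h = u i h := by
  have hrel : ∀ w ∈ Set.range r, FreeGroup.lift (fun i => shift (sigG r i) (u i)) w = 1 := by
    rintro w ⟨j, rfl⟩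
    have h1 := psi_eq_shift (sigG r) u (r j)
    rw [hu j] at h1
    change psi (sigG r) u (r j) = 1
    rw [h1]
    ext ⟨h, s⟩
    · simp [lift_sigG, (PresentedGroup.mk_eq_one_iff).2
        (Subgroup.subset_normalClosure (Set.mem_range_self j))]
    · simp
  let Ψ := PresentedGroup.toGroup hrel
  have hfst : ∀ h, (Ψ h ((1 : PresentedGroup (Set.range r)), (0 : k))).1 = h := by
    intro h
    induction h using PresentedGroup.induction_on with
    | _ w =>
      have : Ψ (PresentedGroup.mk (Set.range r) w) = psi (sigG r) u w := rfl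
      rw [this, psi_eq_shift, shift_apply, lift_sigG, mul_one]
  refine ⟨fun h => (Ψ h (1, 0)).2, fun i h => ?_⟩
  have h1 : Ψ (PresentedGroup.of i * h) (1, 0) = shift (sigG r i) (u i) (Ψ h (1, 0)) := by
    rw [map_mul, Perm.mul_apply]
    congr 1
  have h2 : Ψ h (1, 0) = (h, (Ψ h (1, 0)).2) := by
    ext
    · exact hfst h
    · rfl
  simp only [h1]
  rw [h2]
  simp

end Criterion

end Pool.Agent.Helper638
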