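import Mathlib
import Pool.Agent.Helper638.GS2

set_option autoImplicit false

namespace Pool.Agent.Helper638

open Equiv Module

lemma growth (b : ℕ → ℕ) (m ρ q : ℕ) (hq : 2 ≤ q) (hρ : ρ ≤ 2 * m) (h0 : b 0 = 0) (h1 : 1 ≤ b 1)
    (hI : ∀ n, 2 * m * b (n + 1) + ρ * b n + b (n + 1)
      ≤ ρ * b (n + 1) + 2 * m * b n + m * b (n + 1) + b (n + 2))
    (hgrow : 2 * m + q ^ 2 + ρ * q ≤ (m + 1) * q + ρ) (n : ℕ) : 2 ^ n ≤ b (n + 1) := by
  have key : ∀ n, q * b n ≤ b (n + 1) := by
    intro n
    induction n with
    | zero => simp [h0]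
    | succ n ih =>
      have h := hI n
      zify at *
      have h2 : (0 : ℤ) ≤ 2 * m - ρ := by linarith
      have h3 : (2 * (m : ℤ) - ρ) * (q * b n) ≤ (2 * m - ρ) * b (n + 1) :=
        mul_le_mul_of_nonneg_left ih h2
      have h4 : (0 : ℤ) ≤ b (n + 1) := by positivity
      have h5 := mul_le_mul_of_nonneg_right hgrow h4
      have h6 : (q : ℤ) * (q * b (n + 1)) ≤ q * b (n + 2) := by nlinarith
      exact le_of_mul_le_mul_left h6 (by linarith)
  induction n with
  | zero => simpa using h1
  | succ n ih =>
    calc 2 ^ (n + 1) = 2 * 2 ^ n := by ring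
      _ ≤ q * b (n + 1) := Nat.mul_le_mul hq ih
      _ ≤ b (n + 2) := key (n + 1)

section

variable {k : Type} [Field k]

/-- Families with entries in a submodule. -/
def pw (s : ℕ) {W : Type*} [AddCommGroup W] [Module k W] (p : Submodule k W) :
    Submodule k (Fin s → W) where
  carrier := {f | ∀ i, f i ∈ p}
  add_mem' := fun hf hg i => p.add_mem (hf i) (hg i)
  zero_mem' := fun _ => p.zero_mem
  smul_mem' := fun c _ hf i => p.smul_mem c (hf i)

lemma mem_pw (s : ℕ) {W : Type*} [AddCommGroup W] [Module k W] (p : Submodule k W)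
    (f : Fin s → W) : f ∈ pw s p ↔ ∀ i, f i ∈ p := Iff.rfl

lemma finrank_pw (s : ℕ) {W : Type*} [AddCommGroup W] [Module k W] [FiniteDimensional k W]
    (p : Submodule k W) : finrank k (pw s p) = s * finrank k p := by
  let e : pw s p ≃ₗ[k] (Fin s → p) :=
    { toFun := fun f i => ⟨f.1 i, f.2 i⟩
      map_add' := fun f g => by ext i; simp
      map_smul' := fun c f => by ext i; simp
      invFun := fun g => ⟨fun i => (g i).1, fun i => (g i).2⟩
      left_inv := fun f => by ext i; simp
      right_inv := fun g => by ext i; simp }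
  rw [e.finrank_eq, Module.finrank_pi_fintype]
  simp

end

section

variable {k : Type} [Field k] (r : Fin 2 → FreeGroup (Fin 2))
  [Finite (PresentedGroup (Set.range r))]

/-- Difference map. -/
def delta (k : Type) [Field k] (r : Fin 2 → FreeGroup (Fin 2)) :
    (PresentedGroup (Set.range r) → k) →ₗ[k] (Fin 2 → PresentedGroup (Set.range r) → k) where
  toFun f i h := f (PresentedGroup.of i * h) - f h
  map_add' f g := by ext i h; simp; ring
  map_smul' c f := by ext i h; simp; ring

/-- The relator map. -/
def relmap (k : Type) [Field k] (r : Fin 2 → FreeGroup (Fin 2)) :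
    (Fin 2 → PresentedGroup (Set.range r) → k) →ₗ[k]
      (Fin 2 → PresentedGroup (Set.range r) → k) where
  toFun u j := Z (sigG r) u (r j)
  map_add' u v := by ext j h; simp [Z_add]
  map_smul' c u := by ext j h; simp [Z_smul]

/-- Restriction to a subgroup modulo a filtration step. -/
noncomputable def resQ (k : Type) [Field k] (r : Fin 2 → FreeGroup (Fin 2))
    (N : Subgroup (PresentedGroup (Set.range r))) (n : ℕ) (g : PresentedGroup (Set.range r)) :
    (PresentedGroup (Set.range r) → k) →ₗ[k] ((N → k) ⧸ tt k N n) :=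
  (tt k N n).mkQ ∘ₗ
    { toFun := fun f b => f (g * b)
      map_add' := fun _ _ => rfl
      map_smul' := fun _ _ => rfl }

omit [Finite (PresentedGroup (Set.range r))] in
lemma resQ_eq_zero (N : Subgroup (PresentedGroup (Set.range r))) (n : ℕ)
    (g : PresentedGroup (Set.range r)) (f : PresentedGroup (Set.range r) → k) :
    resQ k r N n g f = 0 ↔ (fun b : N => f (g * b)) ∈ tt k N n := by
  simp [resQ]

/-- Upper bound for the primitives. -/
lemma finrank_primitives_le (N : Subgroup (PresentedGroup (Set.range r))) (n : ℕ) :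
    finrank k ((pw 2 (MM k N (n + 1))).comap (delta k r)) + finrank k (tt k N (n + 1))
      ≤ finrank k (MM k N (n + 1)) + finrank k (tt k N (n + 2)) := by
  set E := (pw 2 (MM k N (n + 1))).comap (delta k r) with hE
  have hall : ∀ f ∈ E, ∀ g : PresentedGroup (Set.range r),
      (fun h => f (g * h) - f h) ∈ MM k N (n + 1) := by
    intro f hf g
    have hf' : ∀ i, (fun h => f (PresentedGroup.of i * h) - f h) ∈ MM k N (n + 1) :=
      fun i => hf i
    induction g using PresentedGroup.induction_on with
    | _ w =>
      induction w using FreeGroup.induction_on with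
      | C1 =>
        have := zero_mem (MM k N (n + 1))
        convert this using 1
        ext h
        simp
      | of i => exact hf' i
      | inv_of i ih =>
        have := neg_mem (MM_translate k N (n + 1) _ ih
          (PresentedGroup.mk (Set.range r) (FreeGroup.of i)⁻¹))
        convert this using 1
        ext h
        simp
      | mul w₁ w₂ h₁ h₂ =>
        have := add_mem (MM_translate k N (n + 1) _ h₁ (PresentedGroup.mk (Set.range r) w₂)) h₂
        convert this using 1
        ext h
        simp [mul_assoc]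
  have hL := finrank_le_inf_ker_add (resQ k r N (n + 1) 1) E
    ((tt k N (n + 2)).map (tt k N (n + 1)).mkQ) (by
      intro f hf
      refine ⟨fun b => f (1 * b), ?_, rfl⟩
      intro a
      have := hall f hf a 1
      simpa using this)
  have hker : finrank k (E ⊓ LinearMap.ker (resQ k r N (n + 1) 1) : Submodule k _)
      ≤ finrank k (MM k N (n + 1)) := by
    apply Submodule.finrank_mono
    rintro f ⟨hf, hf2⟩
    have hf3 := (resQ_eq_zero r N (n + 1) 1 f).1 hf2
    intro h
    have := add_mem (hall f hf h 1) hf3
    convert this using 1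
    ext b
    simp
  have hq := finrank_map_mkQ (tt k N (n + 1)) (tt k N (n + 2)) (tt_mono k N (n + 1))
  omega

end

theorem infinite_of_criterion (k : Type) [Field k] (r : Fin 2 → FreeGroup (Fin 2))
    {Ω : Type} [Fintype Ω] (σ : Fin 2 → Perm Ω) (o : Ω)
    (hσ : ∀ j, FreeGroup.lift σ (r j) = 1)
    (htrans : ∀ ω, ∃ w : FreeGroup (Fin 2), FreeGroup.lift σ w o = ω)
    (ρ : ℕ) (R : Fin ρ → Finset (Fin 2 × Ω))
    (hR : ∀ (A : Type) [AddCommGroup A] [Module k A] (u : Fin 2 → Ω → A),
      (∀ l, ∑ p ∈ R l, u p.1 p.2 = 0) → ∀ j ω, Z σ u (r j) ω = 0)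
    (q : ℕ) (hq : 2 ≤ q) (hρ : ρ ≤ 2 * Fintype.card Ω)
    (hgrow : 2 * Fintype.card Ω + q ^ 2 + ρ * q ≤ (Fintype.card Ω + 1) * q + ρ) :
    Infinite (PresentedGroup (Set.range r)) := by
  by_contra hfin
  rw [not_infinite_iff_finite] at hfin
  have hrel : ∀ w ∈ Set.range r, FreeGroup.lift σ w = 1 := by
    rintro w ⟨j, rfl⟩; exact hσ j
  let π : PresentedGroup (Set.range r) →* Perm Ω := PresentedGroup.toGroup hrel
  have hπ : ∀ w, π (PresentedGroup.mk (Set.range r) w) = FreeGroup.lift σ w := fun w => rfl
  have hπof : ∀ i, π (PresentedGroup.of i) = σ i := fun i => PresentedGroup.toGroup.of hrel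
  have hrep : ∀ ω, ∃ g, π g o = ω := by
    intro ω
    obtain ⟨w, hw⟩ := htrans ω
    exact ⟨PresentedGroup.mk _ w, by rw [hπ, hw]⟩
  choose rep hrep using hrep
  have hMM : ∀ n, finrank k (MM k (stab π o) n)
      = Fintype.card Ω * finrank k (tt k (stab π o) n) := by
    intro n
    rw [(MMequiv k hrep n).finrank_eq, Module.finrank_pi_fintype]
    simp
  have h0 : finrank k (tt k (stab π o) 0) = 0 := by
    change finrank k (⊥ : Submodule k _) = 0
    exact finrank_bot _ _
  have h1 : 1 ≤ finrank k (tt k (stab π o) 1) := by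
    have h : (fun _ : stab π o => (1 : k)) ∈ tt k (stab π o) 1 := by
      intro a
      simp only [sub_self]
      exact zero_mem _
    rw [Nat.one_le_iff_ne_zero]
    intro h'
    have h2 := Submodule.finrank_eq_zero.1 h'
    rw [h2, Submodule.mem_bot] at h
    have := congrFun h 1
    simp at this
  have hI : ∀ n, 2 * Fintype.card Ω * finrank k (tt k (stab π o) (n + 1))
      + ρ * finrank k (tt k (stab π o) n) + finrank k (tt k (stab π o) (n + 1))
      ≤ ρ * finrank k (tt k (stab π o) (n + 1)) + 2 * Fintype.card Ω * finrank k (tt k (stab π o) n)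
        + Fintype.card Ω * finrank k (tt k (stab π o) (n + 1))
        + finrank k (tt k (stab π o) (n + 2)) := by
    intro n
    have hprim := finrank_primitives_le (k := k) r (stab π o) n
    have hV := finrank_pw (k := k) 2 (MM k (stab π o) (n + 1))
    have hV0 := finrank_pw (k := k) 2 (MM k (stab π o) n)
    have hC := finrank_map_mkQ (tt k (stab π o) n) (tt k (stab π o) (n + 1))
      (tt_mono k (stab π o) n)
    have hCp := finrank_pw (k := k) ρ
      ((tt k (stab π o) (n + 1)).map (tt k (stab π o) n).mkQ)
    -- first reduction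
    let Θ : (Fin 2 → PresentedGroup (Set.range r) → k) →ₗ[k]
        (Fin ρ → ((stab π o → k) ⧸ tt k (stab π o) n)) :=
      LinearMap.pi (fun l => ∑ p ∈ R l, (resQ k r (stab π o) n (rep p.2)) ∘ₗ
        (LinearMap.proj p.1))
    have hΘ : ∀ u l, Θ u l = ∑ p ∈ R l, resQ k r (stab π o) n (rep p.2) (u p.1) := by
      intro u l
      simp [Θ, LinearMap.sum_apply]
    have hA := finrank_le_inf_ker_add Θ (pw 2 (MM k (stab π o) (n + 1)))
      (pw ρ ((tt k (stab π o) (n + 1)).map (tt k (stab π o) n).mkQ)) (by
        intro u hu l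
        rw [hΘ]
        apply Submodule.sum_mem
        intro p _
        exact ⟨_, hu p.1 (rep p.2), rfl⟩)
    have hB := finrank_le_inf_ker_add (relmap k r)
      (pw 2 (MM k (stab π o) (n + 1)) ⊓ LinearMap.ker Θ) (pw 2 (MM k (stab π o) n)) (by
        rintro u ⟨hu, hu2⟩ j
        have hu3 : ∀ l, ∑ p ∈ R l, resQ k r (stab π o) n (rep p.2) (u p.1) = 0 := by
          intro l
          rw [← hΘ, LinearMap.mem_ker.1 hu2]
          rfl
        have hz := hR _ (fun i ω => resQ k r (stab π o) n (rep ω) (u i)) hu3
        intro h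
        change (fun b : stab π o => Z (sigG r) u (r j) (h * b)) ∈ tt k (stab π o) n
        rw [← Submodule.Quotient.mk_eq_zero]
        -- pass to values in functions on the stabilizer
        have e1 : (fun b : stab π o => Z (sigG r) u (r j) (h * b))
            = Z (sigG r) (fun i g (b : stab π o) => u i (g * b)) (r j) h := by
          ext b
          have e2 := Z_map (Pi.evalAddMonoidHom (fun _ : stab π o => k) b) (sigG r)
            (fun i g (b : stab π o) => u i (g * b)) (r j) h
          have e3 := Z_comp (fun g => g * (b : PresentedGroup (Set.range r))) (sigG r) (sigG r)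
            (by intro i y; simp [sigG, mul_assoc]) u (r j) h
          simp only [Pi.evalAddMonoidHom_apply] at e2
          rw [← e2, ← e3]
        rw [e1]
        have e4 := Z_map ((tt k (stab π o) n).mkQ.toAddMonoidHom) (sigG r)
            (fun i g (b : stab π o) => u i (g * b)) (r j) h
        have e5 : Submodule.Quotient.mk (p := tt k (stab π o) n)
          (Z (sigG r) (fun i g (b : stab π o) => u i (g * b)) (r j) h)
            = Z (sigG r) (fun i g => (tt k (stab π o) n).mkQ.toAddMonoidHom
              (fun b : stab π o => u i (g * b))) (r j) h := e4.symm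
        rw [e5]
        have e6 : (fun (i : Fin 2) (g : PresentedGroup (Set.range r)) =>
            (tt k (stab π o) n).mkQ.toAddMonoidHom (fun b : stab π o => u i (g * b)))
            = fun i g => resQ k r (stab π o) n (rep (π g o)) (u i) := by
          ext i g
          change Submodule.Quotient.mk _ = Submodule.Quotient.mk _
          rw [Submodule.Quotient.eq]
          have hmem := hu i (rep (π g o)) ⟨(rep (π g o))⁻¹ * g, rep_inv_mul_mem hrep g⟩
          convert hmem using 1
          ext b
          simp [mul_assoc]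
        rw [e6]
        have e7 := Z_comp (fun g => π g o) σ (sigG r)
          (by intro i y; simp [sigG, hπof]) (fun i ω => resQ k r (stab π o) n (rep ω) (u i))
          (r j) h
        rw [e7, hz])
    have hD : finrank k
        ((pw 2 (MM k (stab π o) (n + 1)) ⊓ LinearMap.ker Θ) ⊓ LinearMap.ker (relmap k r)
          : Submodule k _) ≤
        finrank k ((pw 2 (MM k (stab π o) (n + 1))).comap (delta k r)) := by
      refine le_trans (Submodule.finrank_mono (t := ((pw 2 (MM k (stab π o) (n + 1))).comap
        (delta k r)).map (delta k r)) ?_) (Submodule.finrank_map_le _ _)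
      rintro u ⟨⟨hu, -⟩, hu2⟩
      obtain ⟨f, hf⟩ := exists_primitive r u (fun j => congrFun (LinearMap.mem_ker.1 hu2) j)
      have hfu : delta k r f = u := by
        ext i h
        exact hf i h
      refine ⟨f, ?_, hfu⟩
      change delta k r f ∈ pw 2 (MM k (stab π o) (n + 1))
      rw [hfu]
      exact hu
    rw [hMM] at hV hV0 hprim
    nlinarith
  have hbound : ∀ n, finrank k (tt k (stab π o) n) ≤ finrank k (stab π o → k) :=
    fun n => Submodule.finrank_le _
  have h2 := growth (fun n => finrank k (tt k (stab π o) n)) (Fintype.card Ω) ρ q hq hρ h0 h1 hI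
    hgrow (finrank k (stab π o → k))
  have h3 := hbound (finrank k (stab π o → k) + 1)
  have h4 := Nat.lt_two_pow_self (n := finrank k (stab π o → k))
  omega

end Pool.Agent.Helper638
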