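import Mathlib
import Pool.Agent.Helper638.GS3

set_option autoImplicit false

/-! Data for the action of the alternating group of degree five on fifteen points. -/

namespace Pool.Agent.Helper638

open Equiv Module

/-- value of a bit vector of length thirty on a pair of functions -/
def ev {A : Type} [AddCommGroup A] (u : Fin 2 → Fin 15 → A) (n : ℕ) : A :=
  ∑ p : Fin 2 × Fin 15, if n.testBit (15 * p.1.val + p.2.val) then u p.1 p.2 else 0

lemma ev_xor {A : Type} [AddCommGroup A] (h2 : ∀ a : A, a + a = 0) (u : Fin 2 → Fin 15 → A)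
    (m n : ℕ) : ev u (m ^^^ n) = ev u m + ev u n := by
  unfold ev
  rw [← Finset.sum_add_distrib]
  apply Finset.sum_congr rfl
  intro p _
  rw [Nat.testBit_xor]
  cases m.testBit (15 * p.1.val + p.2.val) <;> cases n.testBit (15 * p.1.val + p.2.val) <;>
    simp [h2]

lemma ev_zero {A : Type} [AddCommGroup A] (u : Fin 2 → Fin 15 → A) : ev u 0 = 0 := by
  simp [ev]

lemma ev_two_pow {A : Type} [AddCommGroup A] (u : Fin 2 → Fin 15 → A) (i : Fin 2) (x : Fin 15) :
    ev u (2 ^ (15 * i.val + x.val)) = u i x := by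
  unfold ev
  rw [Finset.sum_eq_single (i, x)]
  · simp
  · intro p _ hp
    rw [Nat.testBit_two_pow, if_neg]
    simp only [decide_eq_true_eq]
    intro h
    apply hp
    have h1 := p.2.isLt
    have h2 := x.isLt
    have h3 : p.1.val = i.val := by omega
    have h4 : p.2.val = x.val := by omega
    exact Prod.ext (Fin.ext h3) (Fin.ext h4)
  · simp

/-- table description of a word -/
def Rep {A : Type} [AddCommGroup A] (σ : Fin 2 → Perm (Fin 15)) (u : Fin 2 → Fin 15 → A)
    (w : FreeGroup (Fin 2)) (s : Fin 15 → Fin 15) (z : Fin 15 → ℕ) : Prop :=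
  ∀ x, FreeGroup.lift σ w x = s x ∧ Z σ u w x = ev u (z x)

lemma Rep_step {A : Type} [AddCommGroup A] (h2 : ∀ a : A, a + a = 0)
    (σ : Fin 2 → Perm (Fin 15)) (u : Fin 2 → Fin 15 → A)
    {w v : FreeGroup (Fin 2)} {s sv s' : Fin 15 → Fin 15} {z zv z' : Fin 15 → ℕ}
    (hw : Rep σ u w s z) (hv : Rep σ u v sv zv)
    (h : ∀ x, sv (s (s' x)) = s (sv x) ∧
      z' x = ((zv x ^^^ z (sv x)) ^^^ zv (s (s' x))) ^^^ z (s' x)) :
    Rep σ u (w⁻¹ * v⁻¹ * w * v) s' z' := by
  have hneg : ∀ a : A, -a = a := fun a => by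
    rw [neg_eq_iff_add_eq_zero]; exact h2 a
  intro x
  obtain ⟨h1, h3⟩ := h x
  have e1 : FreeGroup.lift σ v x = sv x := (hv x).1
  have e2 : FreeGroup.lift σ w (sv x) = s (sv x) := (hw _).1
  have e3 : (FreeGroup.lift σ v).symm (s (sv x)) = s (s' x) := by
    rw [Equiv.symm_apply_eq, ← h1, (hv _).1]
  have e4 : (FreeGroup.lift σ w).symm (s (s' x)) = s' x := by
    rw [Equiv.symm_apply_eq, (hw _).1]
  constructor
  · simp only [map_mul, map_inv, Perm.mul_apply, Perm.coe_inv, e1, e2, e3, e4]
  · rw [Z_mul, Z_mul, Z_mul, Z_inv, Z_inv, hneg, hneg, e1, e2]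
    simp only [map_inv, Perm.coe_inv]
    rw [e3, e4, (hv x).2, (hw _).2, (hv _).2, (hw _).2, h3, ev_xor h2, ev_xor h2, ev_xor h2]
    abel

/-- permutation of the fifteen points -/
def perm0 : Perm (Fin 15) where
  toFun := ![9, 6, 12, 1, 14, 7, 5, 3, 4, 8, 11, 2, 13, 10, 0]
  invFun := ![14, 3, 11, 7, 8, 6, 1, 5, 9, 0, 13, 10, 2, 12, 4]
  left_inv := by decide
  right_inv := by decide

/-- permutation of the fifteen points -/
def perm1 : Perm (Fin 15) where
  toFun := ![4, 7, 10, 12, 13, 14, 2, 8, 11, 1, 5, 9, 0, 3, 6]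
  invFun := ![12, 9, 6, 13, 0, 10, 14, 1, 7, 11, 2, 8, 3, 4, 5]
  left_inv := by decide
  right_inv := by decide

/-- the two permutations -/
def sg : Fin 2 → Perm (Fin 15) := ![perm0, perm1]

/-- table -/
def sA0 : Fin 15 → Fin 15 := ![9, 6, 12, 1, 14, 7, 5, 3, 4, 8, 11, 2, 13, 10, 0]
/-- table -/
def sB0 : Fin 15 → Fin 15 := ![4, 7, 10, 12, 13, 14, 2, 8, 11, 1, 5, 9, 0, 3, 6]
/-- table -/
def sA1 : Fin 15 → Fin 15 := ![6, 12, 9, 8, 11, 2, 7, 14, 1, 4, 3, 5, 10, 0, 13]
/-- table -/
def sB1 : Fin 15 → Fin 15 := ![13, 8, 5, 10, 9, 11, 0, 6, 3, 2, 12, 4, 1, 14, 7]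
/-- table -/
def sA2 : Fin 15 → Fin 15 := ![3, 11, 14, 5, 1, 9, 4, 2, 12, 10, 0, 13, 7, 6, 8]
/-- table -/
def sB2 : Fin 15 → Fin 15 := ![5, 13, 8, 4, 2, 12, 3, 0, 6, 14, 1, 7, 11, 9, 10]
/-- table -/
def sA3 : Fin 15 → Fin 15 := ![5, 13, 8, 4, 2, 12, 3, 0, 6, 14, 1, 7, 11, 9, 10]
/-- table -/
def sB3 : Fin 15 → Fin 15 := ![3, 11, 14, 5, 1, 9, 4, 2, 12, 10, 0, 13, 7, 6, 8]
/-- table -/
def sA4 : Fin 15 → Fin 15 := ![8, 5, 13, 2, 12, 4, 11, 9, 10, 3, 6, 0, 14, 7, 1]
/-- table -/
def sB4 : Fin 15 → Fin 15 := ![11, 14, 3, 9, 5, 1, 10, 13, 0, 7, 8, 6, 4, 2, 12]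
/-- table -/
def zA0 : Fin 15 → ℕ := ![1, 2, 4, 8, 16, 32, 64, 128, 256, 512, 1024, 2048, 4096, 8192, 16384]
/-- table -/
def zB0 : Fin 15 → ℕ := ![32768, 65536, 131072, 262144, 524288, 1048576, 2097152, 4194304, 8388608, 16777216, 33554432, 67108864, 134217728, 268435456, 536870912]
/-- table -/
def zA1 : Fin 15 → ℕ := ![1081424, 268505216, 8521216, 790784, 665600, 135282692, 2359428, 4243712, 10487810, 553648146, 33620008, 71303712, 201327617, 285212681, 570433600]
/-- table -/
def zB1 : Fin 15 → ℕ := ![285212681, 10487810, 135282692, 33620008, 553648146, 71303712, 1081424, 2359428, 790784, 8521216, 201327617, 665600, 268505216, 570433600, 4243712]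
/-- table -/
def zA2 : Fin 15 → ℕ := ![8829184, 68272928, 805511272, 68568069, 151589001, 51912786, 78130688, 23203330, 180356641, 319033512, 169918548, 872448027, 676348240, 275255684, 545589382]
/-- table -/
def zB2 : Fin 15 → ℕ := ![79825953, 571531282, 269287820, 564136472, 139493684, 270864422, 104924744, 318840993, 554729795, 5034624, 11150594, 137644224, 571086928, 209854981, 486560776]
/-- table -/
def zA3 : Fin 15 → ℕ := ![185708763, 288038790, 149079669, 559698393, 6500844, 142952918, 874865773, 167952161, 807448091, 622119846, 17425266, 375660202, 746993947, 85087405, 780693076]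
/-- table -/
def zB3 : Fin 15 → ℕ := ![569170057, 242568714, 1057638492, 842391612, 1058051082, 323858945, 410358102, 833423892, 710578276, 565880387, 217465025, 479144329, 528683685, 116065090, 634572066]
/-- table -/
def zA4 : Fin 15 → ℕ := ![811802615, 176617207, 85571551, 618725230, 765226422, 788094904, 518445279, 896820669, 401407448, 830426719, 1050947003, 706050941, 798613135, 996044536, 353270763]
/-- table -/
def zB4 : Fin 15 → ℕ := ![1026928587, 1034378614, 766964413, 802155585, 916421939, 1071139902, 532411009, 887022526, 519851403, 469211252, 919973357, 662688026, 972785482, 872179869, 1047497388]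
/-- table -/
def zA5 : Fin 15 → ℕ := ![484942825, 798211426, 826274612, 621488248, 777590035, 560602710, 734586983, 860750518, 252253899, 510266159, 116171973, 543619456, 58552591, 174379733, 235259688]
/-- table -/
def zB5 : Fin 15 → ℕ := ![761849190, 728052029, 254684067, 73194020, 227795493, 179403058, 309247691, 825467211, 299937129, 593187581, 413636902, 910254665, 248110934, 421159852, 579737930]
/-- table -/
def zA6 : Fin 15 → ℕ := ![92372340, 540177337, 402960362, 209217476, 705178453, 925512732, 39186818, 21778915, 257246434, 550152305, 106968622, 994055545, 369821484, 686590865, 61618866]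
/-- table -/
def zB6 : Fin 15 → ℕ := ![977351000, 59644832, 75032160, 868395059, 30755749, 124961058, 668572676, 372401259, 164571393, 516849866, 948484382, 45998470, 847200785, 975806508, 475727149]
/-- table -/
def zA7 : Fin 15 → ℕ := ![653315217, 974996634, 365825180, 556217136, 14088232, 595497667, 908887231, 370273032, 801837653, 659965335, 814434664, 203858912, 751643799, 510498374, 755086688]
/-- table -/
def zB7 : Fin 15 → ℕ := ![431770089, 502299690, 1001417500, 39539213, 405005181, 609035864, 883977553, 159627755, 638375584, 362032812, 20184870, 306874955, 949244346, 642128336, 46782534]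
/-- table -/
def zA8 : Fin 15 → ℕ := ![581495531, 140344654, 390224701, 740218047, 732666586, 27040247, 886652844, 159375044, 981608287, 379384314, 526636633, 893759135, 852914033, 342980263, 648498647]
/-- table -/
def zB8 : Fin 15 → ℕ := ![399473840, 653977496, 979209720, 968706682, 523863164, 471324519, 1013892449, 971716753, 548912071, 658451332, 200722306, 502692044, 801484858, 897823359, 1068556041]
/-- table -/
def zA9 : Fin 15 → ℕ := ![285818245, 14829363, 168861950, 621818956, 581900758, 220124941, 577238434, 207541925, 715618502, 625715697, 927049307, 807672593, 235906876, 895584891, 209994466]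
/-- table -/
def zB9 : Fin 15 → ℕ := ![986280777, 64887658, 377027172, 29739028, 598149758, 521262889, 400625828, 205453509, 150403524, 425492818, 1027725067, 104022153, 716842497, 833301114, 940215306]
/-- table -/
def zA10 : Fin 15 → ℕ := ![132132903, 708322055, 424411495, 251256847, 971819161, 30053447, 119961587, 267734154, 436929223, 692404213, 1060785180, 995821839, 740866046, 40997399, 334415911]
/-- table -/
def zB10 : Fin 15 → ℕ := ![989563661, 467650659, 402386958, 694435187, 161588836, 875848943, 157887749, 154349905, 630475703, 187211950, 421696418, 254047158, 190988595, 1015299359, 757606381]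
/-- table -/
def zA11 : Fin 15 → ℕ := ![1054490474, 870120308, 385709033, 909096249, 958438168, 45271360, 379407853, 161827552, 298002952, 852814750, 221410376, 751807410, 886733883, 404344872, 660071908]
/-- table -/
def zB11 : Fin 15 → ℕ := ![934059448, 754806448, 1062626776, 50158569, 637568849, 102187207, 248508338, 537727218, 549816855, 846183865, 71710340, 509247082, 660334076, 873108495, 868809564]
/-- table -/
def zA12 : Fin 15 → ℕ := ![261074465, 628875602, 979866028, 913225083, 600648540, 362483322, 738060529, 108943841, 446027657, 1072336700, 1044969002, 785234870, 528446858, 821229780, 660563941]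
/-- table -/
def zB12 : Fin 15 → ℕ := ![880342399, 986004415, 127823847, 184413161, 211721908, 123139372, 82452334, 894559953, 684681698, 319648715, 849810906, 526089578, 709950069, 908700473, 871037756]
/-- table -/
def zA13 : Fin 15 → ℕ := ![928425254, 917348661, 752820643, 1018650326, 714959224, 946868847, 205071575, 358513064, 95966023, 61114039, 920710952, 1033295581, 960632215, 461650503, 901095131]
/-- table -/
def zB13 : Fin 15 → ℕ := ![435198003, 464609926, 431621453, 1033100955, 154132627, 643618106, 197684188, 224626062, 651062721, 443055674, 723749941, 834129630, 58220009, 911026876, 481811677]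
/-- table -/
def zA14 : Fin 15 → ℕ := ![788904511, 623864775, 744936815, 353973300, 651046864, 523958179, 287963006, 643618288, 200751605, 185794531, 911029944, 820126609, 149109757, 971614078, 177505762]
/-- table -/
def zB14 : Fin 15 → ℕ := ![736071909, 394245635, 1055621974, 31004852, 988482551, 382922536, 226449742, 199161063, 283081128, 732817995, 393852703, 309487233, 1063442989, 848947576, 445154650]
/-- table -/
def zA15 : Fin 15 → ℕ := ![769151027, 863249038, 514592069, 769151034, 863249052, 769150994, 863249100, 514592193, 514591809, 769151538, 769152050, 863251084, 514596161, 863240844, 514608449]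
/-- table -/
def zB15 : Fin 15 → ℕ := ![289857949, 111250859, 672885814, 673016886, 672230454, 290873757, 674851894, 285630877, 681143350, 127962539, 77630891, 356934045, 424042909, 379620779, 648056235]

/-- the six linear conditions -/
def Rn : Fin 6 → ℕ := ![559123777, 289807970, 155885192, 96549892, 56734127, 32767]

/-- combination of the six conditions -/
def comb (c : ℕ) : ℕ :=
  (((((if c.testBit 0 then Rn 0 else 0) ^^^ (if c.testBit 1 then Rn 1 else 0)) ^^^
    (if c.testBit 2 then Rn 2 else 0)) ^^^ (if c.testBit 3 then Rn 3 else 0)) ^^^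
    (if c.testBit 4 then Rn 4 else 0)) ^^^ (if c.testBit 5 then Rn 5 else 0)

/-- coefficients -/
def cA : Fin 15 → ℕ := ![45, 19, 30, 45, 19, 45, 19, 30, 30, 45, 45, 19, 30, 19, 30]

/-- coefficients -/
def cB : Fin 15 → ℕ := ![34, 24, 37, 37, 37, 34, 37, 34, 37, 24, 24, 34, 34, 24, 24]

/-- the conditions as finite sets -/
def RR (l : Fin 6) : Finset (Fin 2 × Fin 15) :=
  Finset.univ.filter (fun p => (Rn l).testBit (15 * p.1.val + p.2.val))

/-- the commutator map -/
def FF {H : Type} [Group H] (v : H) (z : H) : H := z⁻¹ * v⁻¹ * z * v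

section
variable {A : Type} [AddCommGroup A] (h2 : ∀ a : A, a + a = 0) (u : Fin 2 → Fin 15 → A)

omit h2 in
lemma repA0 : Rep sg u (FreeGroup.of 0) sA0 zA0 := by
  intro x
  refine ⟨by simp only [FreeGroup.lift_apply_of]; revert x; decide, ?_⟩
  rw [Z_of]
  have : zA0 x = 2 ^ (15 * (0 : Fin 2).val + x.val) := by revert x; decide
  rw [this, ev_two_pow]

omit h2 in
lemma repB0 : Rep sg u (FreeGroup.of 1) sB0 zB0 := by
  intro x
  refine ⟨by simp only [FreeGroup.lift_apply_of]; revert x; decide, ?_⟩
  rw [Z_of]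
  have : zB0 x = 2 ^ (15 * (1 : Fin 2).val + x.val) := by revert x; decide
  rw [this, ev_two_pow]

include h2 in
lemma repA1 : Rep sg u ((FF (FreeGroup.of 1))^[1] (FreeGroup.of 0)) sA1 zA1 := by
  have h := repA0 u
  rw [Function.iterate_one]
  exact Rep_step h2 sg u h (repB0 u) (by decide +kernel)

include h2 in
lemma repB1 : Rep sg u ((FF (FreeGroup.of 0))^[1] (FreeGroup.of 1)) sB1 zB1 := by
  have h := repB0 u
  rw [Function.iterate_one]
  exact Rep_step h2 sg u h (repA0 u) (by decide +kernel)

include h2 in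
lemma repA2 : Rep sg u ((FF (FreeGroup.of 1))^[2] (FreeGroup.of 0)) sA2 zA2 := by
  have h := repA1 h2 u
  rw [Function.iterate_succ_apply']
  exact Rep_step h2 sg u h (repB0 u) (by decide +kernel)

include h2 in
lemma repB2 : Rep sg u ((FF (FreeGroup.of 0))^[2] (FreeGroup.of 1)) sB2 zB2 := by
  have h := repB1 h2 u
  rw [Function.iterate_succ_apply']
  exact Rep_step h2 sg u h (repA0 u) (by decide +kernel)

include h2 in
lemma repA3 : Rep sg u ((FF (FreeGroup.of 1))^[3] (FreeGroup.of 0)) sA3 zA3 := by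
  have h := repA2 h2 u
  rw [Function.iterate_succ_apply']
  exact Rep_step h2 sg u h (repB0 u) (by decide +kernel)

include h2 in
lemma repB3 : Rep sg u ((FF (FreeGroup.of 0))^[3] (FreeGroup.of 1)) sB3 zB3 := by
  have h := repB2 h2 u
  rw [Function.iterate_succ_apply']
  exact Rep_step h2 sg u h (repA0 u) (by decide +kernel)

include h2 in
lemma repA4 : Rep sg u ((FF (FreeGroup.of 1))^[4] (FreeGroup.of 0)) sA4 zA4 := by
  have h := repA3 h2 u
  rw [Function.iterate_succ_apply']
  exact Rep_step h2 sg u h (repB0 u) (by decide +kernel)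

include h2 in
lemma repB4 : Rep sg u ((FF (FreeGroup.of 0))^[4] (FreeGroup.of 1)) sB4 zB4 := by
  have h := repB3 h2 u
  rw [Function.iterate_succ_apply']
  exact Rep_step h2 sg u h (repA0 u) (by decide +kernel)

include h2 in
lemma repA5 : Rep sg u ((FF (FreeGroup.of 1))^[5] (FreeGroup.of 0)) sA0 zA5 := by
  have h := repA4 h2 u
  rw [Function.iterate_succ_apply']
  exact Rep_step h2 sg u h (repB0 u) (by decide +kernel)

include h2 in
lemma repB5 : Rep sg u ((FF (FreeGroup.of 0))^[5] (FreeGroup.of 1)) sB0 zB5 := by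
  have h := repB4 h2 u
  rw [Function.iterate_succ_apply']
  exact Rep_step h2 sg u h (repA0 u) (by decide +kernel)

include h2 in
lemma repA6 : Rep sg u ((FF (FreeGroup.of 1))^[6] (FreeGroup.of 0)) sA1 zA6 := by
  have h := repA5 h2 u
  rw [Function.iterate_succ_apply']
  exact Rep_step h2 sg u h (repB0 u) (by decide +kernel)

include h2 in
lemma repB6 : Rep sg u ((FF (FreeGroup.of 0))^[6] (FreeGroup.of 1)) sB1 zB6 := by
  have h := repB5 h2 u
  rw [Function.iterate_succ_apply']
  exact Rep_step h2 sg u h (repA0 u) (by decide +kernel)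

include h2 in
lemma repA7 : Rep sg u ((FF (FreeGroup.of 1))^[7] (FreeGroup.of 0)) sA2 zA7 := by
  have h := repA6 h2 u
  rw [Function.iterate_succ_apply']
  exact Rep_step h2 sg u h (repB0 u) (by decide +kernel)

include h2 in
lemma repB7 : Rep sg u ((FF (FreeGroup.of 0))^[7] (FreeGroup.of 1)) sB2 zB7 := by
  have h := repB6 h2 u
  rw [Function.iterate_succ_apply']
  exact Rep_step h2 sg u h (repA0 u) (by decide +kernel)

include h2 in
lemma repA8 : Rep sg u ((FF (FreeGroup.of 1))^[8] (FreeGroup.of 0)) sA3 zA8 := by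
  have h := repA7 h2 u
  rw [Function.iterate_succ_apply']
  exact Rep_step h2 sg u h (repB0 u) (by decide +kernel)

include h2 in
lemma repB8 : Rep sg u ((FF (FreeGroup.of 0))^[8] (FreeGroup.of 1)) sB3 zB8 := by
  have h := repB7 h2 u
  rw [Function.iterate_succ_apply']
  exact Rep_step h2 sg u h (repA0 u) (by decide +kernel)

include h2 in
lemma repA9 : Rep sg u ((FF (FreeGroup.of 1))^[9] (FreeGroup.of 0)) sA4 zA9 := by
  have h := repA8 h2 u
  rw [Function.iterate_succ_apply']
  exact Rep_step h2 sg u h (repB0 u) (by decide +kernel)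

include h2 in
lemma repB9 : Rep sg u ((FF (FreeGroup.of 0))^[9] (FreeGroup.of 1)) sB4 zB9 := by
  have h := repB8 h2 u
  rw [Function.iterate_succ_apply']
  exact Rep_step h2 sg u h (repA0 u) (by decide +kernel)

include h2 in
lemma repA10 : Rep sg u ((FF (FreeGroup.of 1))^[10] (FreeGroup.of 0)) sA0 zA10 := by
  have h := repA9 h2 u
  rw [Function.iterate_succ_apply']
  exact Rep_step h2 sg u h (repB0 u) (by decide +kernel)

include h2 in
lemma repB10 : Rep sg u ((FF (FreeGroup.of 0))^[10] (FreeGroup.of 1)) sB0 zB10 := by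
  have h := repB9 h2 u
  rw [Function.iterate_succ_apply']
  exact Rep_step h2 sg u h (repA0 u) (by decide +kernel)

include h2 in
lemma repA11 : Rep sg u ((FF (FreeGroup.of 1))^[11] (FreeGroup.of 0)) sA1 zA11 := by
  have h := repA10 h2 u
  rw [Function.iterate_succ_apply']
  exact Rep_step h2 sg u h (repB0 u) (by decide +kernel)

include h2 in
lemma repB11 : Rep sg u ((FF (FreeGroup.of 0))^[11] (FreeGroup.of 1)) sB1 zB11 := by
  have h := repB10 h2 u
  rw [Function.iterate_succ_apply']
  exact Rep_step h2 sg u h (repA0 u) (by decide +kernel)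

include h2 in
lemma repA12 : Rep sg u ((FF (FreeGroup.of 1))^[12] (FreeGroup.of 0)) sA2 zA12 := by
  have h := repA11 h2 u
  rw [Function.iterate_succ_apply']
  exact Rep_step h2 sg u h (repB0 u) (by decide +kernel)

include h2 in
lemma repB12 : Rep sg u ((FF (FreeGroup.of 0))^[12] (FreeGroup.of 1)) sB2 zB12 := by
  have h := repB11 h2 u
  rw [Function.iterate_succ_apply']
  exact Rep_step h2 sg u h (repA0 u) (by decide +kernel)

include h2 in
lemma repA13 : Rep sg u ((FF (FreeGroup.of 1))^[13] (FreeGroup.of 0)) sA3 zA13 := by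
  have h := repA12 h2 u
  rw [Function.iterate_succ_apply']
  exact Rep_step h2 sg u h (repB0 u) (by decide +kernel)

include h2 in
lemma repB13 : Rep sg u ((FF (FreeGroup.of 0))^[13] (FreeGroup.of 1)) sB3 zB13 := by
  have h := repB12 h2 u
  rw [Function.iterate_succ_apply']
  exact Rep_step h2 sg u h (repA0 u) (by decide +kernel)

include h2 in
lemma repA14 : Rep sg u ((FF (FreeGroup.of 1))^[14] (FreeGroup.of 0)) sA4 zA14 := by
  have h := repA13 h2 u
  rw [Function.iterate_succ_apply']
  exact Rep_step h2 sg u h (repB0 u) (by decide +kernel)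

include h2 in
lemma repB14 : Rep sg u ((FF (FreeGroup.of 0))^[14] (FreeGroup.of 1)) sB4 zB14 := by
  have h := repB13 h2 u
  rw [Function.iterate_succ_apply']
  exact Rep_step h2 sg u h (repA0 u) (by decide +kernel)

include h2 in
lemma repA15 : Rep sg u ((FF (FreeGroup.of 1))^[15] (FreeGroup.of 0)) sA0 zA15 := by
  have h := repA14 h2 u
  rw [Function.iterate_succ_apply']
  exact Rep_step h2 sg u h (repB0 u) (by decide +kernel)

include h2 in
lemma repB15 : Rep sg u ((FF (FreeGroup.of 0))^[15] (FreeGroup.of 1)) sB0 zB15 := by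
  have h := repB14 h2 u
  rw [Function.iterate_succ_apply']
  exact Rep_step h2 sg u h (repA0 u) (by decide +kernel)

end

lemma ev_comb {A : Type} [AddCommGroup A] (h2 : ∀ a : A, a + a = 0) (u : Fin 2 → Fin 15 → A)
    (hu : ∀ l, ∑ p ∈ RR l, u p.1 p.2 = 0) (c : ℕ) : ev u (comb c) = 0 := by
  have h : ∀ l, ev u (Rn l) = 0 := by
    intro l
    rw [← hu l, RR, Finset.sum_filter]
    rfl
  have h' : ∀ (b : Bool) (l : Fin 6), ev u (if b then Rn l else 0) = 0 := by
    intro b l
    cases b
    · simp [ev_zero]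
    · simp [h]
  unfold comb
  simp only [ev_xor h2, h', add_zero]

lemma checkA : ∀ x : Fin 15, zA15 x = zA0 x ^^^ comb (cA x) := by decide +kernel
lemma checkB : ∀ x : Fin 15, zB15 x = zB0 x ^^^ comb (cB x) := by decide +kernel

lemma psi_A {A : Type} [AddCommGroup A] (h2 : ∀ a : A, a + a = 0) (u : Fin 2 → Fin 15 → A)
    (hu : ∀ l, ∑ p ∈ RR l, u p.1 p.2 = 0) :
    psi sg u ((FF (FreeGroup.of 1))^[15] (FreeGroup.of 0)) = psi sg u (FreeGroup.of 0) := by
  have e1 : FreeGroup.lift sg ((FF (FreeGroup.of 1))^[15] (FreeGroup.of 0))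
      = FreeGroup.lift sg (FreeGroup.of 0) :=
    Equiv.ext (fun x => (repA15 h2 u x).1.trans (repA0 u x).1.symm)
  have e2 : Z sg u ((FF (FreeGroup.of 1))^[15] (FreeGroup.of 0)) = Z sg u (FreeGroup.of 0) := by
    funext x
    rw [(repA15 h2 u x).2, (repA0 u x).2, checkA, ev_xor h2, ev_comb h2 u hu, add_zero]
  rw [psi_eq_shift, e1, e2, ← psi_eq_shift]

lemma psi_B {A : Type} [AddCommGroup A] (h2 : ∀ a : A, a + a = 0) (u : Fin 2 → Fin 15 → A)
    (hu : ∀ l, ∑ p ∈ RR l, u p.1 p.2 = 0) :
    psi sg u ((FF (FreeGroup.of 0))^[15] (FreeGroup.of 1)) = psi sg u (FreeGroup.of 1) := by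
  have e1 : FreeGroup.lift sg ((FF (FreeGroup.of 0))^[15] (FreeGroup.of 1))
      = FreeGroup.lift sg (FreeGroup.of 1) :=
    Equiv.ext (fun x => (repB15 h2 u x).1.trans (repB0 u x).1.symm)
  have e2 : Z sg u ((FF (FreeGroup.of 0))^[15] (FreeGroup.of 1)) = Z sg u (FreeGroup.of 1) := by
    funext x
    rw [(repB15 h2 u x).2, (repB0 u x).2, checkB, ev_xor h2, ev_comb h2 u hu, add_zero]
  rw [psi_eq_shift, e1, e2, ← psi_eq_shift]

lemma map_FF_iterate {H K : Type} [Group H] [Group K] (f : H →* K) (v z : H) (n : ℕ) :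
    f ((FF v)^[n] z) = (FF (f v))^[n] (f z) := by
  induction n with
  | zero => rfl
  | succ n ih => rw [Function.iterate_succ_apply', Function.iterate_succ_apply', ← ih]; simp [FF]

/-- the two relators -/
def rel (a b : ℕ) : Fin 2 → FreeGroup (Fin 2) :=
  ![(FF (FreeGroup.of 1))^[a] (FreeGroup.of 0) * (FreeGroup.of 0)⁻¹,
    (FF (FreeGroup.of 0))^[b] (FreeGroup.of 1) * (FreeGroup.of 1)⁻¹]

lemma psi_rel {A : Type} [AddCommGroup A] (h2 : ∀ a : A, a + a = 0) (u : Fin 2 → Fin 15 → A)
    (hu : ∀ l, ∑ p ∈ RR l, u p.1 p.2 = 0) (a b : ℕ) (j : Fin 2) :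
    psi sg u (rel (15 * a) (15 * b) j) = 1 := by
  have hA := psi_A h2 u hu
  have hB := psi_B h2 u hu
  rw [map_FF_iterate] at hA hB
  fin_cases j
  · change psi sg u ((FF (FreeGroup.of 1))^[15 * a] (FreeGroup.of 0) * (FreeGroup.of 0)⁻¹) = 1
    rw [map_mul, map_inv, map_FF_iterate, Function.iterate_mul, Function.iterate_fixed hA,
      mul_inv_cancel]
  · change psi sg u ((FF (FreeGroup.of 0))^[15 * b] (FreeGroup.of 1) * (FreeGroup.of 1)⁻¹) = 1
    rw [map_mul, map_inv, map_FF_iterate, Function.iterate_mul, Function.iterate_fixed hB,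
      mul_inv_cancel]

lemma lift_eq_one_of_psi {A : Type} [AddCommGroup A] (u : Fin 2 → Fin 15 → A)
    (w : FreeGroup (Fin 2)) (h : psi sg u w = 1) : FreeGroup.lift sg w = 1 ∧ Z sg u w = 0 := by
  rw [psi_eq_shift] at h
  constructor
  · ext x
    have := congrArg (fun e : Perm (Fin 15 × A) => (e (x, 0)).1) h
    simpa using congrArg Fin.val this
  · ext x
    have := congrArg (fun e : Perm (Fin 15 × A) => (e (x, 0)).2) h
    simpa using this

/-- words moving the base point -/
def wd : Fin 15 → List (Fin 2) := ![[], [1, 0], [0, 1, 0, 0], [1, 1, 1], [1], [0, 0, 1, 0], [0, 1, 0], [1, 1, 0], [0, 0], [0], [0, 1, 1], [1, 0, 0], [1, 1, 1, 1], [1, 1], [0, 1]]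

lemma lift_wd (l : List (Fin 2)) (x : Fin 15) :
    FreeGroup.lift sg ((l.map FreeGroup.of).prod) x = l.foldr (fun i y => sg i y) x := by
  induction l with
  | nil => simp
  | cons i l ih => simp [ih]

lemma wd_spec : ∀ x : Fin 15, (wd x).foldr (fun i y => sg i y) 0 = x := by decide +kernel

theorem infinite_rel (a b : ℕ) : Infinite (PresentedGroup (Set.range (rel (15 * a) (15 * b)))) := by
  refine infinite_of_criterion (ZMod 2) (rel (15 * a) (15 * b)) sg 0 ?_ ?_ 6 RR ?_ 4 (by norm_num)
    (by simp) (by simp)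
  · intro j
    exact (lift_eq_one_of_psi (A := ZMod 2) 0 _
      (psi_rel (fun a => CharTwo.add_self_eq_zero a) 0 (by simp) a b j)).1
  · intro x
    exact ⟨_, by rw [lift_wd]; exact wd_spec x⟩
  · intro A _ _ u hu j ω
    have h2 : ∀ a : A, a + a = 0 := by
      intro a
      rw [← two_smul (ZMod 2) a, show (2 : ZMod 2) = 0 from rfl, zero_smul]
    exact congrFun (lift_eq_one_of_psi u _ (psi_rel h2 u hu a b j)).2 ω

end Pool.Agent.Helper638
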